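import Mathlib
import Pool.Agent.Helper340_star.Final
import Pool.Agent.Helper340_star.ExFinal

/-! # MP_437bdf_an, Q1: exactly one positive bounded solution on every exterior-star domain

For every positive reaction `f` and every exterior-star domain `Ω` with uniformly `C^{2,γ}`
boundary, the problem `-Δ u = f(u)` in `Ω`, `u = 0` on `∂Ω` has exactly one positive bounded
solution.

Existence.  For a smooth `V ≥ 0` positive exactly outside the closure of `Ω` and cut off to
potentials `W_n` increasing to infinity there, `-Δ u + W_n u = f(u)` is solved on the whole space
by monotone iteration from `1` with the explicit Gaussian resolvent of the Laplacian.  The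
(maximal) solutions decrease in `n`; an averaging formula with compactly supported radial kernels
shows that the limit is a classical solution in `Ω`; barriers at exterior balls give the boundary
values, and a subsolution in a large ball contained in `Ω` gives positivity.

Uniqueness.  Put the centre at `0`, so that `l Ω ⊆ Ω` for `l ≥ 1`.  For two solutions `u`, `v` one
maximises over `y ∈ Ω` and `s ∈ [0, S]`
`(1+κ) log v(y) - log u(e^s y) - K w (cosh (N (s - σ - (δ/2) log w)) - 1)`, `w = 1 + |y|²`,
`κ = 16/N`, and decreases the parameter `σ` to a first touching value.  The slow growth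
`(δ/2) log w` of the dilation parameter keeps the touching point at finite distance; the exponent
`1 + κ` produces a term `(2/N) |∇ log u|²` that absorbs all gradient errors up to the boundary;
so the first and second order conditions at the touching point give
`e^{2s} f(U)/U ≤ (1+κ) f(v)/v + small`, `U = u(e^s y)`, `v^{1+κ} = (1 + τ + small) U`, which is
false for a positive reaction.  The a priori bounds needed (hair-trigger bound, exponential
lower bound along rays, Hopf and exterior ball barriers) are proved by the maximum principle. -/

open Set

namespace Pool.Agent.Results.MP_437bdf_an.StarExactlyOne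

open ExtStar

/-- **Exactly one positive bounded solution on exterior-star domains.** -/
theorem result (d : ℕ) (γ : ℝ) (f : ℝ → ℝ) (hf : PositiveReaction γ f)
    (Ω : Set (EuclideanSpace ℝ (Fin d))) (hΩ : IsOpen Ω) (hconn : IsConnected Ω)
    (hbd : UniformC2Boundary γ Ω)
    (hstar : ∃ c : EuclideanSpace ℝ (Fin d), StarConvex ℝ c Ωᶜ) :
    ∃ u : EuclideanSpace ℝ (Fin d) → ℝ, IsSol f Ω u ∧
      ∀ v : EuclideanSpace ℝ (Fin d) → ℝ, IsSol f Ω v → EqOn v u (closure Ω) := by
  obtain ⟨u, hu⟩ := existence hf hΩ hconn hbd hstar
  exact ⟨u, hu, fun v hv => uniqueness hf hΩ hstar hbd hv hu⟩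

end Pool.Agent.Results.MP_437bdf_an.StarExactlyOne
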